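import Pool.Agent.Q291.MK.Stm10

/-! # Project MK (helper291), job CC: convergence of conditional expectations -/

set_option autoImplicit false

namespace Pool.Agent.Q174.MK

open Filter Topology MeasureTheory Quaternion
open Pool.Agent.Q291.MK Pool.Agent.Q280.MK

/-- Uniform convergence. -/
def UC (u : ℕ → G → ℝ) (v : G → ℝ) : Prop :=
  ∀ ε : ℝ, 0 < ε → ∀ᶠ l in atTop, ∀ x, |u l x - v x| ≤ ε

theorem uc_iff (u : ℕ → G → ℝ) (v : G → ℝ) : UC u v ↔ TendstoUniformly u v atTop := by
  rw [Metric.tendstoUniformly_iff]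
  constructor
  · intro h ε hε
    filter_upwards [h (ε / 2) (by positivity)] with l hl x
    rw [dist_comm, Real.dist_eq]
    have := hl x
    linarith
  · intro h ε hε
    filter_upwards [h ε hε] with l hl x
    have := hl x
    rw [dist_comm, Real.dist_eq] at this
    exact this.le

theorem bdd {u : G → ℝ} (hu : Continuous u) : ∃ M : ℝ, 0 ≤ M ∧ ∀ x, |u x| ≤ M := by
  obtain ⟨M, hM⟩ := isCompact_univ.exists_bound_of_continuousOn hu.continuousOn
  exact ⟨M, (abs_nonneg _).trans (hM 1 (Set.mem_univ _)), fun x => hM x (Set.mem_univ _)⟩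

theorem prod_le {a b a' b' M δ : ℝ} (hδ : 0 ≤ δ) (hδ1 : δ ≤ 1) (ha : |a| ≤ M)
    (hb : |b| ≤ M) (h1 : |a' - a| ≤ δ) (h2 : |b' - b| ≤ δ) :
    |a' * b' - a * b| ≤ (2 * M + 1) * δ := by
  have e : a' * b' - a * b = (a' - a) * (b' - b) + (a' - a) * b + a * (b' - b) := by ring
  have hM : 0 ≤ M := (abs_nonneg _).trans ha
  rw [e]
  calc |(a' - a) * (b' - b) + (a' - a) * b + a * (b' - b)|
      ≤ |(a' - a) * (b' - b)| + |(a' - a) * b| + |a * (b' - b)| := by
        refine (abs_add_le _ _).trans ?_
        gcongr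
        exact abs_add_le _ _
    _ = |a' - a| * |b' - b| + |a' - a| * |b| + |a| * |b' - b| := by
        rw [abs_mul, abs_mul, abs_mul]
    _ ≤ δ * 1 + δ * M + M * δ := by
        have := h2.trans hδ1
        gcongr
    _ = (2 * M + 1) * δ := by ring

theorem uc_mul {u v : ℕ → G → ℝ} {u' v' : G → ℝ} (hu : UC u u') (hv : UC v v')
    (cu : Continuous u') (cv : Continuous v') :
    UC (fun l x => u l x * v l x) (fun x => u' x * v' x) := by
  obtain ⟨M1, h1, hM1⟩ := bdd cu
  obtain ⟨M2, h2, hM2⟩ := bdd cv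
  intro ε hε
  set M := M1 + M2
  have hM : 0 ≤ M := by positivity
  set δ := min 1 (ε / (2 * M + 1))
  have hδ : 0 < δ := by positivity
  filter_upwards [hu δ hδ, hv δ hδ] with l hl hl' x
  have m1 : M1 ≤ M := by simp only [M]; linarith
  have m2 : M2 ≤ M := by simp only [M]; linarith
  refine (prod_le (M := M) hδ.le (min_le_left _ _) ((hM1 x).trans m1)
    ((hM2 x).trans m2) (hl x) (hl' x)).trans ?_
  calc (2 * M + 1) * δ ≤ (2 * M + 1) * (ε / (2 * M + 1)) := by
        gcongr
        exact min_le_right _ _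
    _ = ε := by field_simp

theorem uc_conv {u v : ℕ → G → ℝ} {u' v' : G → ℝ} (hu : UC u u') (hv : UC v v')
    (cu : Continuous u') (cv : Continuous v') (cul : ∀ l, Continuous (u l))
    (cvl : ∀ l, Continuous (v l)) :
    UC (fun l => conv (u l) (v l)) (conv u' v') := by
  obtain ⟨M1, h1, hM1⟩ := bdd cu
  obtain ⟨M2, h2, hM2⟩ := bdd cv
  intro ε hε
  set M := M1 + M2
  have hM : 0 ≤ M := by positivity
  set δ := min 1 (ε / (2 * M + 1))
  have hδ : 0 < δ := by positivity
  filter_upwards [hu δ hδ, hv δ hδ] with l hl hl' x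
  have i1 : Integrable (fun y => u l y * v l (y⁻¹ * x)) haar :=
    (conv_integrand_cont (cul l) (cvl l) x).integrable_of_hasCompactSupport
      (HasCompactSupport.of_compactSpace _)
  have i2 : Integrable (fun y => u' y * v' (y⁻¹ * x)) haar :=
    (conv_integrand_cont cu cv x).integrable_of_hasCompactSupport
      (HasCompactSupport.of_compactSpace _)
  unfold conv
  rw [← integral_sub i1 i2]
  have h3 : ∀ y, ‖u l y * v l (y⁻¹ * x) - u' y * v' (y⁻¹ * x)‖ ≤ ε := by
    intro y
    rw [Real.norm_eq_abs]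
    have m1 : M1 ≤ M := by simp only [M]; linarith
    have m2 : M2 ≤ M := by simp only [M]; linarith
    refine (prod_le (M := M) hδ.le (min_le_left _ _) ((hM1 y).trans m1)
      ((hM2 _).trans m2) (hl y) (hl' _)).trans ?_
    calc (2 * M + 1) * δ ≤ (2 * M + 1) * (ε / (2 * M + 1)) := by
          gcongr
          exact min_le_right _ _
      _ = ε := by field_simp
  have h4 := norm_integral_le_of_norm_le_const (μ := haar) (Filter.Eventually.of_forall h3)
  rw [Real.norm_eq_abs] at h4
  simpa using h4

theorem uc_div {u v : ℕ → G → ℝ} {u' v' : G → ℝ} (hu : UC u u') (hv : UC v v')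
    (cu : Continuous u') (cv : Continuous v') (hpos : ∀ x, 0 < v' x) :
    UC (fun l x => u l x / v l x) (fun x => u' x / v' x) := by
  obtain ⟨M1, h1, hM1⟩ := bdd cu
  obtain ⟨M2, h2, hM2⟩ := bdd cv
  obtain ⟨x0, -, hx0⟩ := isCompact_univ.exists_isMinOn (Set.univ_nonempty (α := G)) cv.continuousOn
  have hmin : ∀ x, v' x0 ≤ v' x := fun x => hx0 (Set.mem_univ x)
  have hc := hpos x0
  obtain ⟨c, hcd⟩ : ∃ c, c = v' x0 := ⟨_, rfl⟩
  rw [← hcd] at hmin hc
  intro ε hε
  set M := M1 + M2 + 1
  have hM : 0 < M := by positivity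
  set δ := min (c / 2) (ε * (c * c / 2) / (2 * M)) with hδd
  have hδ : 0 < δ := by positivity
  filter_upwards [hu δ hδ, hv δ hδ] with l hl hl' x
  have hv1 : c / 2 ≤ v l x := by
    have h3 := (abs_le.1 (hl' x)).1
    have h4 : δ ≤ c / 2 := min_le_left _ _
    have h5 := hmin x
    linarith
  have hv0 : 0 < v l x := by linarith
  have hv'0 := hpos x
  rw [div_sub_div _ _ hv0.ne' hv'0.ne', abs_div, abs_of_pos (mul_pos hv0 hv'0),
    div_le_iff₀ (mul_pos hv0 hv'0)]
  have e : u l x * v' x - v l x * u' x = (u l x - u' x) * v' x - u' x * (v l x - v' x) := by ring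
  rw [e]
  calc |(u l x - u' x) * v' x - u' x * (v l x - v' x)|
      ≤ |(u l x - u' x) * v' x| + |u' x * (v l x - v' x)| := abs_sub _ _
    _ = |u l x - u' x| * |v' x| + |u' x| * |v l x - v' x| := by rw [abs_mul, abs_mul]
    _ ≤ δ * M + M * δ := by
        have a1 : |v' x| ≤ M := (hM2 x).trans (by simp only [M]; linarith)
        have a2 : |u' x| ≤ M := (hM1 x).trans (by simp only [M]; linarith)
        have a3 := hl x
        have a4 := hl' x
        gcongr
    _ = (2 * M) * δ := by ring
    _ ≤ (2 * M) * (ε * (c * c / 2) / (2 * M)) := by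
        gcongr
        exact min_le_right _ _
    _ = ε * ((c / 2) * c) := by field_simp
    _ ≤ ε * (v l x * v' x) := by
        gcongr
        exact hmin x

theorem t_CC : P_CC := by
  intro f g φ hφ hf hf0 hf1 hg hg0 hg1 hfg n
  have main : ∀ n, (∀ l, Continuous (cnd (f l) φ n)) ∧ Continuous (cnd g φ n) ∧
      UC (fun l => cnd (f l) φ n) (cnd g φ n) := by
    intro n
    induction n with
    | zero =>
      refine ⟨fun _ => hφ, hφ, fun ε hε => ?_⟩
      refine Filter.Eventually.of_forall fun l x => ?_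
      simp only [cnd, sub_self, abs_zero]
      exact hε.le
    | succ n ih =>
      obtain ⟨c1, c2, hU⟩ := ih
      -- normalised densities
      have hc : ∀ l, 0 < f l n 1 := fun l => hf1 l n 1 (by rw [tt_one]; exact one_pos)
      set h : ℕ → G → ℝ := fun l x => f l n x / f l n 1 with hh
      have hhc : ∀ l, Continuous (h l) := fun l => (hf l n).div_const _
      have hhU : UC h (g n) := (uc_iff _ _).2 (hfg n)
      have e : ∀ l, cnd (f l) φ (n + 1) = Qop (h l) (cnd (f l) φ n) := by
        intro l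
        funext x
        change Qop (f l n) (cnd (f l) φ n) x = _
        have e2 : f l n = fun y => f l n 1 * h l y := by
          funext y
          simp only [hh]
          rw [mul_div_cancel₀ _ (hc l).ne']
        conv_lhs => rw [e2]
        exact Qop_smul _ (hc l).ne' _ _ _
      have cgg := conv_cont (hg n) (hg n)
      have cggg := conv_cont (hg n) cgg
      have cZ := conv_cont (hg n) cggg
      have cN := conv_cont (c2.mul (hg n)) cggg
      have hpos : ∀ x, 0 < conv (g n) (conv (g n) (conv (g n) (g n))) x :=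
        Z_pos' (hg n) (hg0 n) (hg1 n)
      have u2 : UC (fun l => conv (h l) (h l)) (conv (g n) (g n)) :=
        uc_conv hhU hhU (hg n) (hg n) hhc hhc
      have u3 : UC (fun l => conv (h l) (conv (h l) (h l))) (conv (g n) (conv (g n) (g n))) :=
        uc_conv hhU u2 (hg n) cgg hhc (fun l => conv_cont (hhc l) (hhc l))
      have u4 : UC (fun l => conv (h l) (conv (h l) (conv (h l) (h l))))
          (conv (g n) (conv (g n) (conv (g n) (g n)))) :=
        uc_conv hhU u3 (hg n) cggg hhc
          (fun l => conv_cont (hhc l) (conv_cont (hhc l) (hhc l)))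
      have u5 : UC (fun l y => cnd (f l) φ n y * h l y) (fun y => cnd g φ n y * g n y) :=
        uc_mul hU hhU c2 (hg n)
      have u6 : UC (fun l => conv (fun y => cnd (f l) φ n y * h l y)
          (conv (h l) (conv (h l) (h l))))
          (conv (fun y => cnd g φ n y * g n y) (conv (g n) (conv (g n) (g n)))) :=
        uc_conv u5 u3 (c2.mul (hg n)) cggg (fun l => (c1 l).mul (hhc l))
          (fun l => conv_cont (hhc l) (conv_cont (hhc l) (hhc l)))
      have u7 := uc_div u6 u4 cN cZ hpos
      refine ⟨fun l => ?_, ?_, ?_⟩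
      · change Continuous (Qop (f l n) (cnd (f l) φ n))
        have a1 := conv_cont (hf l n) (conv_cont (hf l n) (hf l n))
        exact (conv_cont ((c1 l).mul (hf l n)) a1).div (conv_cont (hf l n) a1)
          fun x => (Z_pos' (hf l n) (hf0 l n) (hf1 l n) x).ne'
      · change Continuous (Qop (g n) (cnd g φ n))
        exact cN.div cZ fun x => (hpos x).ne'
      · have e3 : (fun l => cnd (f l) φ (n + 1)) = fun l => Qop (h l) (cnd (f l) φ n) := funext e
        rw [e3]
        exact u7
  exact (uc_iff _ _).1 (main n).2.2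

end Pool.Agent.Q174.MK
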