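import Pool.Agent.Q291.MK.Stm11
import Pool.Agent.Q210.MK.POIS

/-! # Project MK (helper291), job PB: Poisson-binomial laws -/

set_option autoImplicit false

namespace Pool.Agent.Q174.MK

open Filter Topology Finset
open Pool.Agent.Q291.MK
open Pool.Agent.Q210.MK (pois_AM PB_shift)

/-! ### finite support -/

theorem pbl_zero_of_lt (p : ℕ → ℝ) : ∀ (n k : ℕ), n < k → pbl p n k = 0
  | 0, k, h => by
    have : k ≠ 0 := by omega
    simp [pbl, this]
  | n + 1, k, h => by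
    have h1 : k ≠ 0 := by omega
    have h2 := pbl_zero_of_lt p n k (by omega)
    have h3 := pbl_zero_of_lt p n (k - 1) (by omega)
    simp [pbl, h1, h2, h3]

theorem pbl_nn (p : ℕ → ℝ) (hp : ∀ i, 0 ≤ p i ∧ p i ≤ 1) : ∀ (n k : ℕ), 0 ≤ pbl p n k
  | 0, k => by
    simp only [pbl]
    split_ifs <;> norm_num
  | n + 1, k => by
    simp only [pbl]
    have h1 := pbl_nn p hp n k
    have h2 := pbl_nn p hp n (k - 1)
    have h3 := hp n
    have h4 : 0 ≤ (if k = 0 then (0 : ℝ) else pbl p n (k - 1)) := by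
      split_ifs
      · exact le_rfl
      · exact h2
    have h5 : 0 ≤ 1 - p n := by linarith [h3.2]
    exact add_nonneg (mul_nonneg h5 h1) (mul_nonneg h3.1 h4)

theorem pbl_summ (p : ℕ → ℝ) (n : ℕ) (φ : ℕ → ℝ) : Summable fun k => pbl p n k * φ k := by
  apply summable_of_ne_finset_zero (s := range (n + 1))
  intro k hk
  rw [mem_range, not_lt] at hk
  rw [pbl_zero_of_lt p n k (by omega), zero_mul]

theorem E_zero (p : ℕ → ℝ) (φ : ℕ → ℝ) : E (pbl p 0) φ = φ 0 := by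
  unfold E
  rw [tsum_eq_single 0]
  · simp [pbl]
  · intro k hk
    simp [pbl, hk]

theorem E_succ (p : ℕ → ℝ) (n : ℕ) (φ : ℕ → ℝ) :
    E (pbl p (n + 1)) φ = E (pbl p n) fun k => (1 - p n) * φ k + p n * φ (k + 1) := by
  unfold E
  have h1 : ∀ k, pbl p (n + 1) k * φ k =
      (1 - p n) * (pbl p n k * φ k) +
        p n * ((if k = 0 then (0 : ℝ) else pbl p n (k - 1)) * φ k) := by
    intro k; simp only [pbl]; ring
  have s1 : Summable fun k => (if k = 0 then (0 : ℝ) else pbl p n (k - 1)) * φ k := by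
    apply summable_of_ne_finset_zero (s := range (n + 2))
    intro k hk
    rw [mem_range, not_lt] at hk
    have : k ≠ 0 := by omega
    rw [if_neg this, pbl_zero_of_lt p n (k - 1) (by omega), zero_mul]
  have h2 : ∑' k, (if k = 0 then (0 : ℝ) else pbl p n (k - 1)) * φ k =
      ∑' k, pbl p n k * φ (k + 1) := by
    rw [s1.tsum_eq_zero_add]
    simp
  have s2 := pbl_summ p n φ
  have s3 := pbl_summ p n (fun k => φ (k + 1))
  calc ∑' k, pbl p (n + 1) k * φ k
      = ∑' k, ((1 - p n) * (pbl p n k * φ k) +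
        p n * ((if k = 0 then (0 : ℝ) else pbl p n (k - 1)) * φ k)) := tsum_congr h1
    _ = (1 - p n) * ∑' k, pbl p n k * φ k +
        p n * ∑' k, (if k = 0 then (0 : ℝ) else pbl p n (k - 1)) * φ k := by
        rw [(s2.mul_left _).tsum_add (s1.mul_left _), tsum_mul_left, tsum_mul_left]
    _ = (1 - p n) * ∑' k, pbl p n k * φ k + p n * ∑' k, pbl p n k * φ (k + 1) := by rw [h2]
    _ = ∑' k, ((1 - p n) * (pbl p n k * φ k) + p n * (pbl p n k * φ (k + 1))) := by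
        rw [(s2.mul_left _).tsum_add (s3.mul_left _), tsum_mul_left, tsum_mul_left]
    _ = _ := tsum_congr fun k => by ring

theorem E_add' (p : ℕ → ℝ) (n : ℕ) (φ ψ : ℕ → ℝ) :
    E (pbl p n) (fun k => φ k + ψ k) = E (pbl p n) φ + E (pbl p n) ψ := by
  unfold E
  rw [← (pbl_summ p n φ).tsum_add (pbl_summ p n ψ)]
  exact tsum_congr fun k => by ring

theorem E_one (p : ℕ → ℝ) (n : ℕ) : E (pbl p n) (fun _ => 1) = 1 := by
  induction n with
  | zero => rw [E_zero]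
  | succ n ih =>
    rw [E_succ]
    simpa using ih

theorem E_cst (p : ℕ → ℝ) (n : ℕ) (c : ℝ) : E (pbl p n) (fun _ => c) = c := by
  have h := E_const_mul (a := pbl p n) c (fun _ => 1)
  simp only [mul_one] at h
  rw [h, E_one, mul_one]

theorem pbl_AM (p : ℕ → ℝ) (hp : ∀ i, 0 ≤ p i ∧ p i ≤ 1) (n : ℕ) : AM (pbl p n) where
  nn := pbl_nn p hp n
  one := by
    have h1 := pbl_summ p n (fun _ => 1)
    have h2 := E_one p n
    unfold E at h2
    simp only [mul_one] at h1 h2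
    rw [← h2]
    exact h1.hasSum
  mom := fun q => pbl_summ p n _

theorem pbl_mean (p : ℕ → ℝ) (n : ℕ) : mean (pbl p n) = ∑ i ∈ range n, p i := by
  unfold mean
  induction n with
  | zero => rw [E_zero]; simp
  | succ n ih =>
    rw [E_succ, sum_range_succ, ← ih]
    have e : (fun k : ℕ => (1 - p n) * (k : ℝ) + p n * ((k + 1 : ℕ) : ℝ)) =
        fun k : ℕ => (k : ℝ) + p n := by
      funext k; push_cast; ring
    rw [e, E_add', E_cst]

theorem pbl_c1 (p : ℕ → ℝ) (n : ℕ) :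
    E (pbl p n) (fun k => (k : ℝ) - ∑ i ∈ range n, p i) = 0 := by
  have e : (fun k : ℕ => (k : ℝ) - ∑ i ∈ range n, p i) =
      fun k : ℕ => (k : ℝ) + (-∑ i ∈ range n, p i) := by
    funext k; ring
  rw [e, E_add', E_cst]
  have := pbl_mean p n
  unfold mean at this
  rw [this]; ring

theorem pbl_c2 (p : ℕ → ℝ) (n : ℕ) :
    E (pbl p n) (fun k => ((k : ℝ) - ∑ i ∈ range n, p i) ^ 2) =
      ∑ i ∈ range n, p i * (1 - p i) := by
  induction n with
  | zero => rw [E_zero]; simp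
  | succ n ih =>
    rw [E_succ, sum_range_succ (fun i => p i * (1 - p i)), ← ih]
    have e : (fun k : ℕ => (1 - p n) * ((k : ℝ) - ∑ i ∈ range (n + 1), p i) ^ 2 +
        p n * (((k + 1 : ℕ) : ℝ) - ∑ i ∈ range (n + 1), p i) ^ 2) =
        fun k : ℕ => ((k : ℝ) - ∑ i ∈ range n, p i) ^ 2 + p n * (1 - p n) := by
      funext k
      rw [sum_range_succ]; push_cast; ring
    rw [e, E_add', E_cst]

theorem pbl_c3 (p : ℕ → ℝ) (n : ℕ) :
    E (pbl p n) (fun k => ((k : ℝ) - ∑ i ∈ range n, p i) ^ 3) =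
      ∑ i ∈ range n, p i * (1 - p i) * (1 - 2 * p i) := by
  induction n with
  | zero => rw [E_zero]; simp
  | succ n ih =>
    rw [E_succ, sum_range_succ (fun i => p i * (1 - p i) * (1 - 2 * p i)), ← ih]
    have e : (fun k : ℕ => (1 - p n) * ((k : ℝ) - ∑ i ∈ range (n + 1), p i) ^ 3 +
        p n * (((k + 1 : ℕ) : ℝ) - ∑ i ∈ range (n + 1), p i) ^ 3) =
        fun k : ℕ => ((k : ℝ) - ∑ i ∈ range n, p i) ^ 3 +
          ((3 * (p n * (1 - p n))) * ((k : ℝ) - ∑ i ∈ range n, p i) +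
          p n * (1 - p n) * (1 - 2 * p n)) := by
      funext k
      rw [sum_range_succ]; push_cast; ring
    rw [e, E_add', E_add', E_const_mul, pbl_c1, E_cst]
    ring

theorem pbl_gen (p : ℕ → ℝ) (n : ℕ) (t : ℝ) :
    E (pbl p n) (fun k => t ^ k) = ∏ i ∈ range n, (1 - p i + p i * t) := by
  induction n with
  | zero => rw [E_zero]; simp
  | succ n ih =>
    rw [E_succ, prod_range_succ, ← ih]
    have e : (fun k : ℕ => (1 - p n) * t ^ k + p n * t ^ (k + 1)) =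
        fun k : ℕ => (1 - p n + p n * t) * t ^ k := by
      funext k; ring
    rw [e, E_const_mul]; ring

/-! ### convex order -/

/-- convexity on the natural numbers -/
def Cvx (φ : ℕ → ℝ) : Prop := ∀ k, 0 ≤ φ (k + 2) - 2 * φ (k + 1) + φ k

theorem Cvx.mono {φ : ℕ → ℝ} (h : Cvx φ) (k j : ℕ) : φ (k + 1) - φ k ≤ φ (k + j + 1) - φ (k + j) := by
  induction j with
  | zero => exact le_rfl
  | succ j ih =>
    have := h (k + j)
    have e1 : k + (j + 1) = k + j + 1 := by ring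
    have e2 : k + (j + 1) + 1 = k + j + 2 := by ring
    rw [e2, e1]
    linarith

theorem Cvx.line {φ : ℕ → ℝ} (h : Cvx φ) (k j : ℕ) :
    φ k + j * (φ (k + 1) - φ k) ≤ φ (k + j) := by
  induction j with
  | zero => simp
  | succ j ih =>
    have := h.mono k j
    have e1 : k + (j + 1) = k + j + 1 := by ring
    rw [e1]; push_cast
    linarith

theorem Cvx.bern {φ : ℕ → ℝ} (h : Cvx φ) {p : ℝ} (hp : 0 ≤ p ∧ p ≤ 1) :
    Cvx (fun k => (1 - p) * φ k + p * φ (k + 1)) := by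
  intro k
  have h1 := mul_nonneg (sub_nonneg.2 hp.2) (h k)
  have h2 := mul_nonneg hp.1 (h (k + 1))
  have e1 : k + 1 + 2 = k + 2 + 1 := by ring
  have e2 : k + 1 + 1 = k + 2 := by ring
  simp only [e1, e2] at h2 ⊢
  linarith

theorem PB.bern {φ : ℕ → ℝ} (h : PB φ) (p : ℝ) :
    PB (fun k => (1 - p) * φ k + p * φ (k + 1)) :=
  ((PB.const _).mul h).add ((PB.const _).mul (PB_shift h))

/-- summability over pairs, two laws -/
theorem summ2' {a b : ℕ → ℝ} (ha : AM a) (hb : AM b) {φ : ℕ → ℕ → ℝ} (h : PB2 φ) :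
    Summable fun q : ℕ × ℕ => a q.1 * b q.2 * φ q.1 q.2 := by
  obtain ⟨C, q, hC, h⟩ := h.nonneg_C
  have hs : Summable fun k => a k * (1 + (k:ℝ)) ^ q :=
    ha.summ (((PB.const 1).add PB.id).pow q)
  have hs' : Summable fun k => b k * (1 + (k:ℝ)) ^ q :=
    hb.summ (((PB.const 1).add PB.id).pow q)
  have h0 : 0 ≤ fun k => a k * (1 + (k:ℝ)) ^ q := fun k =>
    mul_nonneg (ha.nn k) (by positivity)
  have h0' : 0 ≤ fun k => b k * (1 + (k:ℝ)) ^ q := fun k =>
    mul_nonneg (hb.nn k) (by positivity)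
  have h1 := (hs.mul_of_nonneg hs' h0 h0').mul_left C
  refine Summable.of_norm_bounded h1 fun p => ?_
  rw [Real.norm_eq_abs, abs_mul, abs_of_nonneg (mul_nonneg (ha.nn _) (hb.nn _))]
  refine (mul_le_mul_of_nonneg_left (h p.1 p.2) (mul_nonneg (ha.nn _) (hb.nn _))).trans
    (le_of_eq ?_)
  rw [mul_pow]; ring

theorem tsum_prod {a b : ℕ → ℝ} (ha : AM a) (hb : AM b) {φ ψ : ℕ → ℝ} (h : PB φ) (h' : PB ψ) :
    ∑' q : ℕ × ℕ, a q.1 * b q.2 * (φ q.1 * ψ q.2) = E a φ * E b ψ := by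
  unfold E
  have h1 : Summable (fun k => ‖a k * φ k‖) := (ha.summ h).norm
  have h2 : Summable (fun k => ‖b k * ψ k‖) := (hb.summ h').norm
  rw [tsum_mul_tsum_of_summable_norm h1 h2]
  exact tsum_congr fun p => by ring

theorem PB2.sum {φ : ℕ → ℝ} (h : PB φ) : PB2 (fun k j => φ (k + j)) := by
  obtain ⟨C, q, hC, h⟩ := h.nonneg_C
  refine ⟨C, q, fun K L => (h _).trans ?_⟩
  have h2 : (0:ℝ) ≤ L := Nat.cast_nonneg L
  have h1 : (0:ℝ) ≤ K := Nat.cast_nonneg K
  push_cast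
  gcongr
  nlinarith [mul_nonneg h1 h2]

/-- Summation over antidiagonals. -/
theorem tsum_anti (Φ : ℕ × ℕ → ℝ) (hs : Summable Φ) :
    ∑' q, Φ q = ∑' n : ℕ, ∑ q ∈ antidiagonal n, Φ q := by
  have hs2 : Summable fun x : (Σ n : ℕ, antidiagonal n) =>
      Φ (Finset.HasAntidiagonal.sigmaAntidiagonalEquivProd x) :=
    (Finset.HasAntidiagonal.sigmaAntidiagonalEquivProd.summable_iff (f := Φ)).2 hs
  rw [← Finset.HasAntidiagonal.sigmaAntidiagonalEquivProd.tsum_eq Φ]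
  have h1 := hs2.tsum_sigma' (fun n => (hasSum_fintype _).summable)
  refine h1.trans ?_
  refine tsum_congr fun n => ?_
  rw [tsum_fintype]
  exact Finset.sum_coe_sort (antidiagonal n) Φ

theorem pois_anti (μ p : ℝ) (n : ℕ) :
    ∑ q ∈ antidiagonal n, pois μ q.1 * pois p q.2 = pois (μ + p) n := by
  have h3 : ∀ q ∈ antidiagonal n, pois μ q.1 * pois p q.2 =
      Real.exp (-(μ + p)) * ((n.choose q.1 : ℝ) * μ ^ q.1 * p ^ q.2 / n.factorial) := by
    intro q hq
    have hq' := mem_antidiagonal.1 hq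
    simp only [pois]
    rw [neg_add, Real.exp_add]
    have h4 : (n.choose q.1 : ℝ) * q.1.factorial * q.2.factorial = n.factorial := by
      have := Nat.add_choose_mul_factorial_mul_factorial q.2 q.1
      rw [add_comm q.2 q.1, hq'] at this
      rw [mul_assoc, mul_comm (q.1.factorial : ℝ), ← mul_assoc]
      exact_mod_cast this
    rw [← h4]
    have h5 : (n.choose q.1 : ℝ) ≠ 0 := by
      have : 0 < n.choose q.1 := Nat.choose_pos (by omega)
      positivity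
    have h6 : (q.1.factorial : ℝ) ≠ 0 := by positivity
    have h7 : (q.2.factorial : ℝ) ≠ 0 := by positivity
    field_simp
  rw [sum_congr rfl h3, ← mul_sum, ← sum_div]
  have h6 : ∑ q ∈ antidiagonal n, (n.choose q.1 : ℝ) * μ ^ q.1 * p ^ q.2 = (μ + p) ^ n := by
    rw [(Commute.all μ p).add_pow']
    refine sum_congr rfl fun q _ => ?_
    rw [nsmul_eq_mul]; ring
  rw [h6]
  unfold pois
  ring

/-- Convolution of Poisson laws. -/
theorem pois_conv {μ p : ℝ} (hμ : 0 ≤ μ) (hp : 0 ≤ p) {φ : ℕ → ℝ} (h : PB φ) :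
    ∑' q : ℕ × ℕ, pois μ q.1 * pois p q.2 * φ (q.1 + q.2) = E (pois (μ + p)) φ := by
  rw [tsum_anti (fun q => pois μ q.1 * pois p q.2 * φ (q.1 + q.2))
    (summ2' (pois_AM hμ) (pois_AM hp) (PB2.sum h))]
  unfold E
  refine tsum_congr fun n => ?_
  rw [← pois_anti, sum_mul]
  refine sum_congr rfl fun q hq => ?_
  rw [mem_antidiagonal.1 hq]

/-- Adding a Poisson variable beats adding a Bernoulli variable of the same mean. -/
theorem step_le {μ p : ℝ} (hμ : 0 ≤ μ) (hp : 0 ≤ p) {φ : ℕ → ℝ} (h : PB φ) (hc : Cvx φ) :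
    E (pois μ) (fun k => (1 - p) * φ k + p * φ (k + 1)) ≤ E (pois (μ + p)) φ := by
  have ha := pois_AM hμ
  have hb := pois_AM hp
  have hd : PB (fun k => φ (k + 1) - φ k) := (PB_shift h).sub h
  have e1 : E (pois μ) (fun k => (1 - p) * φ k + p * φ (k + 1)) =
      ∑' q : ℕ × ℕ, pois μ q.1 * pois p q.2 * (φ q.1 + q.2 * (φ (q.1 + 1) - φ q.1)) := by
    have a1 := tsum_prod ha hb h (PB.const 1)
    have a2 := tsum_prod ha hb hd PB.id
    have m1 : E (pois p) (fun _ => 1) = 1 := hb.toLaw.E_const 1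
    have m2 : E (pois p) (fun k => (k : ℝ)) = p := (Pool.Agent.Q210.MK.t_POIS p hp).2.1
    rw [m1] at a1
    rw [m2] at a2
    have s1 := summ2' ha hb ((PB2.fst h).mul (PB2.snd (PB.const 1)))
    have s2 := summ2' ha hb ((PB2.fst hd).mul (PB2.snd PB.id))
    have a3 : ∑' q : ℕ × ℕ, pois μ q.1 * pois p q.2 * (φ q.1 + q.2 * (φ (q.1 + 1) - φ q.1)) =
        E (pois μ) φ * 1 + E (pois μ) (fun k => φ (k + 1) - φ k) * p := by
      rw [← a1, ← a2, ← s1.tsum_add s2]
      exact tsum_congr fun q => by ring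
    rw [a3, mul_one, ha.E_sub (PB_shift h) h]
    have a4 : (fun k => (1 - p) * φ k + p * φ (k + 1)) =
        fun k => (1 - p) * φ k + p * (fun k => φ (k + 1)) k := rfl
    rw [a4, ha.E_add ((PB.const _).mul h) ((PB.const _).mul (PB_shift h)), E_const_mul,
      E_const_mul]
    ring
  rw [e1, ← pois_conv hμ hp h]
  have s1 : PB2 (fun k j => φ k + j * (φ (k + 1) - φ k)) :=
    (PB2.fst h).add ((PB2.snd PB.id).mul (PB2.fst hd))
  refine Summable.tsum_le_tsum (fun q => ?_) (summ2' ha hb s1) (summ2' ha hb (PB2.sum h))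
  exact mul_le_mul_of_nonneg_left (hc.line q.1 q.2) (mul_nonneg (ha.nn _) (hb.nn _))

theorem cvx_order (p : ℕ → ℝ) (hp : ∀ i, 0 ≤ p i ∧ p i ≤ 1) (n : ℕ) : ∀ φ : ℕ → ℝ, PB φ → Cvx φ →
    E (pbl p n) φ ≤ E (pois (∑ i ∈ range n, p i)) φ := by
  induction n with
  | zero =>
    intro φ h hc
    rw [E_zero]
    apply le_of_eq
    unfold E
    rw [tsum_eq_single 0]
    · simp [pois]
    · intro k hk
      simp [pois, hk]
  | succ n ih =>
    intro φ h hc
    rw [E_succ, sum_range_succ]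
    refine (ih _ (PB.bern h (p n)) (hc.bern (hp n))).trans ?_
    exact step_le (sum_nonneg fun i _ => (hp i).1) (hp n).1 h hc

theorem cvx8 (μ : ℝ) : Cvx (fun k => ((k : ℝ) - μ) ^ 8) := by
  intro k
  push_cast
  have e : ((k : ℝ) + 2 - μ) ^ 8 - 2 * ((k : ℝ) + 1 - μ) ^ 8 + ((k : ℝ) - μ) ^ 8 =
      2 * (28 * (((k : ℝ) + 1 - μ) ^ 3) ^ 2 + 70 * (((k : ℝ) + 1 - μ) ^ 2) ^ 2 +
        28 * ((k : ℝ) + 1 - μ) ^ 2 + 1) := by ring
  rw [e]; positivity

theorem cvx12 (μ : ℝ) : Cvx (fun k => ((k : ℝ) - μ) ^ 12) := by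
  intro k
  push_cast
  have e : ((k : ℝ) + 2 - μ) ^ 12 - 2 * ((k : ℝ) + 1 - μ) ^ 12 + ((k : ℝ) - μ) ^ 12 =
      2 * (66 * (((k : ℝ) + 1 - μ) ^ 5) ^ 2 + 495 * (((k : ℝ) + 1 - μ) ^ 4) ^ 2 +
        924 * (((k : ℝ) + 1 - μ) ^ 3) ^ 2 + 495 * (((k : ℝ) + 1 - μ) ^ 2) ^ 2 +
        66 * ((k : ℝ) + 1 - μ) ^ 2 + 1) := by ring
  rw [e]; positivity

theorem t_PB : P_PB := by
  intro p n hp
  have hm := pbl_mean p n
  have hμ : 0 ≤ ∑ i ∈ range n, p i := sum_nonneg fun i _ => (hp i).1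
  have hpm : mean (pois (∑ i ∈ range n, p i)) = ∑ i ∈ range n, p i :=
    (Pool.Agent.Q210.MK.t_POIS _ hμ).2.1
  refine ⟨pbl_AM p hp n, hm, ?_, ?_, ?_, ?_, pbl_gen p n⟩
  · unfold vr
    rw [hm, pbl_c2]
    refine sum_le_sum fun i _ => ?_
    nlinarith [(hp i).1, (hp i).2]
  · unfold k3
    rw [hm, pbl_c3]
    refine (abs_sum_le_sum_abs _ _).trans (sum_le_sum fun i _ => ?_)
    rw [abs_le]
    have h1 := (hp i).1
    have h2 := (hp i).2
    have h3 : 0 ≤ 1 - p i := by linarith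
    have h4 : 0 ≤ p i * (1 - p i) := mul_nonneg h1 h3
    have h5 : p i * (1 - p i) ≤ p i := by nlinarith
    constructor
    · nlinarith [mul_nonneg h4 h3]
    · nlinarith [mul_nonneg h4 h1]
  · unfold m8
    rw [hm, hpm]
    exact cvx_order p hp n _ ((PB.id.sub (PB.const _)).pow 8) (cvx8 _)
  · unfold m12
    rw [hm, hpm]
    exact cvx_order p hp n _ ((PB.id.sub (PB.const _)).pow 12) (cvx12 _)

end Pool.Agent.Q174.MK
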